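import Pool.Agent.helper48.TH.Spec2

/-! # Row VSG of the project TH (MP_f42afa_pr) -/

set_option autoImplicit false

namespace TP.TW

open DP MeasureTheory Finset

private theorem VSG_prob : IsProbabilityMeasure P1 := by
  unfold P1
  infer_instance

private theorem VSG_nonneg (F : Set (V → Bool)) : 0 ≤ Pr F := measureReal_nonneg

private theorem VSG_mono {F G : Set (V → Bool)} (h : F ⊆ G) : Pr F ≤ Pr G := by
  have := VSG_prob
  exact measureReal_mono h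

private theorem VSG_le_one (F : Set (V → Bool)) : Pr F ≤ 1 := by
  have := VSG_prob
  exact measureReal_le_one

private theorem VSG_univ : Pr (Set.univ : Set (V → Bool)) = 1 := by
  have := VSG_prob
  unfold Pr
  exact probReal_univ

private theorem VSG_union {ι : Type} (U : Finset ι) (G : ι → Set (V → Bool)) (F : Set (V → Bool))
    (h : ∀ β ∈ F, ∃ z ∈ U, β ∈ G z) : Pr F ≤ ∑ z ∈ U, Pr (G z) := by
  have := VSG_prob
  have h1 : F ⊆ ⋃ z ∈ U, G z := by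
    intro β hβ
    obtain ⟨z, hz, hz'⟩ := h β hβ
    exact Set.mem_iUnion₂.2 ⟨z, hz, hz'⟩
  exact (VSG_mono h1).trans (measureReal_biUnion_finset_le U G)

private theorem VSG_crs {o : Bool} {c c' : V → Bool} {k : Bool} {W : Set V} {a b d e : ℤ}
    (h : ∀ w ∈ rect a b d e, c w = c' w) (hc : crs o c k W a b d e) : crs o c' k W a b d e := by
  obtain ⟨u, v, h1, h2⟩ := hc
  refine ⟨u, v, h1, Con.mono ?_ h2⟩
  rintro w ⟨hw1, hw2⟩
  exact ⟨hw1, by rw [← h w hw1.1]; exact hw2⟩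

private theorem VSG_rf {a b d e : ℤ} {w : V} (hw : w ∈ rect a b d e) : br w ∈ rf a b d e := by
  unfold rf
  obtain ⟨h1, h2, h3, h4⟩ := hw
  exact mem_image.2 ⟨w, mem_product.2 ⟨mem_Icc.2 ⟨h1, h2⟩, mem_Icc.2 ⟨h3, h4⟩⟩, rfl⟩

private theorem VSG_br (w : V) : w.1 - 1 ≤ (br w).1 ∧ (br w).1 ≤ w.1 ∧ (br w).2 = w.2 := by
  unfold br
  split
  · exact ⟨by omega, le_rfl, rfl⟩
  · exact ⟨le_rfl, by simp only; omega, rfl⟩

private theorem VSG_rf_mem {a b d e : ℤ} {z : V} (hz : z ∈ rf a b d e) :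
    a - 1 ≤ z.1 ∧ z.1 ≤ b ∧ d ≤ z.2 ∧ z.2 ≤ e := by
  unfold rf at hz
  obtain ⟨w, hw, rfl⟩ := mem_image.1 hz
  rw [mem_product, mem_Icc, mem_Icc] at hw
  have := VSG_br w
  omega

private theorem VSG_shf {τ : ℤ × ℤ} {S : Finset V} {z : V} :
    z ∈ shf τ S ↔ ((z.1 - τ.1, z.2 - τ.2) : V) ∈ S := by
  unfold shf
  rw [mem_image]
  constructor
  · rintro ⟨v, hv, rfl⟩
    have : ((v.1 + τ.1 - τ.1, v.2 + τ.2 - τ.2) : V) = v := Prod.ext (by simp) (by simp)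
    rw [this]
    exact hv
  · intro h
    exact ⟨_, h, Prod.ext (by simp) (by simp)⟩

private theorem VSG_core (shi : SHI_stmt) (shp : SHP_stmt)
    (R : ℕ) (C₁ C₀ : ℝ) (hC1 : 0 < C₁)
    (plr : ∀ (U : Finset V) (p : V → ℝ) (ℓ : ℝ), 0 ≤ ℓ → (∀ z ∈ U, 0 ≤ p z ∧ p z ≤ 1) →
      ∑ z ∈ U, p z * (Real.log (1 / p z) + ℓ) ^ R ≤
        C₁ * (∑ z ∈ U, p z + 1) * (Real.log (#U + 3) + ℓ) ^ R)
    (o k : Bool) (S : (V → Bool) → Finset V) (Ω : Finset V) (w : V → ℝ) (K : ℝ)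
    (hRS : RS S Ω w R K) (a b d e a' b' d' e' : ℤ) (s t : ℕ)
    (hm : ∀ (c : V → Bool) (W : Set V) (i j : ℤ), 0 ≤ i → i ≤ s → 0 ≤ j → j ≤ s →
      crs o c k W (a + 2 * i) (b + 2 * i) (d + 2 * j) (e + 2 * j) → crs o c k W a' b' d' e')
    (g1 : a - t ≤ a' - 1 - 2 * s) (g2 : b' ≤ b + t) (g3 : d - t ≤ d' - 2 * s) (g4 : e' ≤ e + t)
    (Z : (V → Bool) → Finset V) (hZ1 : ∀ β, Z β ⊆ rf a' b' d' e')
    (hZ2 : ∀ z, CD {β | z ∈ Z β} (rf a' b' d' e'))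
    (hZ3 : ∀ (β : V → Bool) (S : Finset V), crs o (col β) k (til S) a' b' d' e' → ∃ z ∈ Z β, z ∈ S)
    (hZ4 : ∑ z ∈ rf a' b' d' e', Pr {β | z ∈ Z β} ≤ C₀) :
    ((s : ℝ) + 1) ^ 2 * Pr {β | crs o (col β) k (til (S β)) a b d e} ≤
      C₁ * (C₀ + 1) * (2 * Real.log (((s : ℝ) + 1) ^ 2 + #(rf a' b' d' e') + 3)) ^ R *
        (K * ∑ v ∈ nr Ω a b d e t, w v) := by
  obtain ⟨-, hSΩ, ⟨Λ₀, hΛ₀⟩, hw0, hwΩ, hK0, hDEC⟩ := hRS
  set U := rf a' b' d' e' with hU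
  set P := Pr {β | crs o (col β) k (til (S β)) a b d e} with hP
  set Q := ∑ v ∈ nr Ω a b d e t, w v with hQ
  let g : ℕ × ℕ → V := fun x => (2 * (x.1 : ℤ), 2 * (x.2 : ℤ))
  have hg : Function.Injective g := by
    rintro ⟨x, y⟩ ⟨z, w⟩ h
    simp only [g, Prod.mk.injEq] at h ⊢
    omega
  obtain ⟨T, hT, hTm⟩ : ∃ T : Finset V, #T = (s + 1) ^ 2 ∧
      ∀ τ ∈ T, ∃ i j : ℤ, τ = (2 * i, 2 * j) ∧ 0 ≤ i ∧ i ≤ s ∧ 0 ≤ j ∧ j ≤ s := by
    refine ⟨(range (s + 1) ×ˢ range (s + 1)).image g, ?_, ?_⟩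
    · rw [card_image_of_injective _ hg, card_product, card_range, sq]
    · intro τ hτ
      obtain ⟨⟨x, y⟩, hx, rfl⟩ := mem_image.1 hτ
      rw [mem_product, mem_range, mem_range] at hx
      exact ⟨x, y, rfl, by omega, by omega, by omega, by omega⟩
  let F : V → V → Set (V → Bool) := fun z τ =>
    {β | ((z.1 - τ.1, z.2 - τ.2) : V) ∈ S (fun v => β (v.1 + τ.1, v.2 + τ.2))}
  have hin : ∀ z ∈ U, ∀ τ ∈ T, a - t ≤ z.1 - τ.1 ∧ z.1 - τ.1 ≤ b + t ∧ d - t ≤ z.2 - τ.2 ∧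
      z.2 - τ.2 ≤ e + t := by
    intro z hz τ hτ
    obtain ⟨i, j, rfl, h1, h2, h3, h4⟩ := hTm τ hτ
    have := VSG_rf_mem hz
    simp only
    omega
  have hp0 : ∀ z, 0 ≤ Pr {β | z ∈ Z β} := fun z => VSG_nonneg _
  -- one translation
  have h1 : ∀ τ ∈ T, P ≤ ∑ z ∈ U, Pr ({β | z ∈ Z β} ∩ F z τ) := by
    intro τ hτ
    obtain ⟨i, j, rfl, i1, i2, i3, i4⟩ := hTm τ hτ
    have hCD : CD {β | crs o (col β) k (til (S β)) a b d e} (Λ₀ ∪ rf a b d e) := by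
      intro β β' hb
      have e1 : S β = S β' := hΛ₀ β β' fun v hv => hb v (mem_union_left _ hv)
      have e2 : ∀ w ∈ rect a b d e, col β w = col β' w := by
        intro w hw
        exact hb (br w) (mem_union_right _ (VSG_rf hw))
      simp only [Set.mem_ofPred_eq]
      rw [e1]
      exact ⟨fun h => VSG_crs e2 h, fun h => VSG_crs (fun w hw => (e2 w hw).symm) h⟩
    have e0 := shp _ _ hCD (2 * i) (2 * j)
    rw [hP, ← e0]
    refine VSG_union U (fun z => {β | z ∈ Z β} ∩ F z (2 * i, 2 * j)) _ ?_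
    intro β hβ
    have hβ' := (shi o k β _ a b d e i j).1 hβ
    obtain ⟨z, hz, hz'⟩ := hZ3 β _ (hm _ _ i j i1 i2 i3 i4 hβ')
    refine ⟨z, hZ1 β hz, hz, ?_⟩
    rw [VSG_shf] at hz'
    exact hz'
  set UB : Finset V := Icc (a - t) (b + t) ×ˢ Icc (d - t) (e + t) with hUB
  have hUBQ : ∑ v ∈ UB, w v ≤ Q := by
    have e3 : ∀ v ∈ UB, w v ≠ 0 → v ∈ Ω := by
      intro v _ hv
      by_contra hvΩ
      exact hv (hwΩ v hvΩ)
    rw [← sum_filter_of_ne e3]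
    refine sum_le_sum_of_subset_of_nonneg ?_ (fun v _ _ => hw0 _)
    intro v hv
    obtain ⟨hv1, hv2⟩ := mem_filter.1 hv
    rw [hUB, mem_product, mem_Icc, mem_Icc] at hv1
    exact mem_filter.2 ⟨hv2, by omega, by omega, by omega, by omega⟩
  have hQ0 : 0 ≤ Q := sum_nonneg fun v _ => hw0 _
  set ℓ := Real.log (((s : ℝ) + 1) ^ 2 + #U + 3) with hℓ
  have hUc : (0 : ℝ) ≤ #U := Nat.cast_nonneg _
  have hℓ0 : 0 ≤ ℓ := Real.log_nonneg (by nlinarith [sq_nonneg ((s : ℝ) + 1)])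
  have hTℓ : Real.log ((#T : ℝ) + #U + 3) = ℓ := by
    rw [hℓ, hT]
    push_cast
    rfl
  have hnn : ∀ z, 0 ≤ Pr {β | z ∈ Z β} * (Real.log (1 / Pr {β | z ∈ Z β}) + ℓ) ^ R := by
    intro z
    refine mul_nonneg (hp0 z) (pow_nonneg (add_nonneg ?_ hℓ0) _)
    rcases (hp0 z).eq_or_lt with h | h
    · rw [← h]
      simp
    · exact Real.log_nonneg (by rw [le_div_iff₀ h, one_mul]; exact VSG_le_one _)
  have h3 : ∀ z ∈ U, ∑ τ ∈ T, Pr ({β | z ∈ Z β} ∩ F z τ) ≤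
      (Pr {β | z ∈ Z β} * (Real.log (1 / Pr {β | z ∈ Z β}) + ℓ) ^ R) * (K * Q) := by
    intro z hz
    have e1 := hDEC T UB U z {β | z ∈ Z β} (hZ2 z) ?_
    · rw [hTℓ] at e1
      refine e1.trans ?_
      have e2 : K * Pr {β | z ∈ Z β} * (Real.log (1 / Pr {β | z ∈ Z β}) + ℓ) ^ R *
          ∑ v ∈ UB, w v = (Pr {β | z ∈ Z β} * (Real.log (1 / Pr {β | z ∈ Z β}) + ℓ) ^ R) *
            (K * ∑ v ∈ UB, w v) := by ring
      rw [e2]
      exact mul_le_mul_of_nonneg_left (mul_le_mul_of_nonneg_left hUBQ hK0) (hnn z)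
    · intro v hv τ hτ
      have hvU : v ∈ U := by
        rcases mem_insert.1 hv with rfl | h
        · exact hz
        · exact h
      obtain ⟨q1, q2, q3, q4⟩ := hin v hvU τ hτ
      exact mem_product.2 ⟨mem_Icc.2 ⟨q1, q2⟩, mem_Icc.2 ⟨q3, q4⟩⟩
  have h5 : ((s : ℝ) + 1) ^ 2 * P ≤ ∑ τ ∈ T, ∑ z ∈ U, Pr ({β | z ∈ Z β} ∩ F z τ) := by
    have h6 := sum_le_sum h1
    rw [sum_const, hT, nsmul_eq_mul] at h6
    push_cast at h6
    exact h6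
  rw [sum_comm] at h5
  have h7 := h5.trans (sum_le_sum h3)
  rw [← sum_mul] at h7
  refine h7.trans (mul_le_mul_of_nonneg_right ?_ (mul_nonneg hK0 hQ0))
  refine (plr U _ ℓ hℓ0 fun z _ => ⟨hp0 z, VSG_le_one _⟩).trans ?_
  have hlog1 : 0 ≤ Real.log ((#U : ℝ) + 3) := Real.log_nonneg (by linarith)
  have hlog2 : Real.log ((#U : ℝ) + 3) ≤ ℓ :=
    Real.log_le_log (by linarith) (by nlinarith [sq_nonneg ((s : ℝ) + 1)])
  have hsum0 : 0 ≤ ∑ z ∈ U, Pr {β | z ∈ Z β} := sum_nonneg fun z _ => hp0 z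
  refine mul_le_mul (mul_le_mul_of_nonneg_left (by linarith) hC1.le)
    (pow_le_pow_left₀ (by linarith) (by linarith) _) (pow_nonneg (by linarith) _) ?_
  exact mul_nonneg hC1.le (by linarith)

private theorem VSG_small (o k : Bool) (S : (V → Bool) → Finset V) (Ω : Finset V) (w : V → ℝ)
    (R : ℕ) (K : ℝ) (hRS : RS S Ω w R K) (a b d e : ℤ) (t : ℕ) (ht : 1 ≤ t) :
    Pr {β | crs o (col β) k (til (S β)) a b d e} ≤
      K * Real.log 4 ^ R * ∑ v ∈ nr Ω a b d e t, w v := by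
  obtain ⟨-, hSΩ, -, hw0, hwΩ, hK0, hDEC⟩ := hRS
  have h1 := VSG_union (nr Ω a b d e t) (fun v => {β | v ∈ S β})
    {β | crs o (col β) k (til (S β)) a b d e} ?_
  · refine h1.trans ?_
    rw [mul_sum]
    refine sum_le_sum fun v _ => ?_
    have h2 := hDEC {((0, 0) : V)} {v} ∅ v Set.univ (fun _ _ _ => Iff.rfl) ?_
    · rw [sum_singleton, sum_singleton, VSG_univ, card_singleton, card_empty] at h2
      have e1 : (Set.univ : Set (V → Bool)) ∩ {β | (v.1 - ((0, 0) : V).1, v.2 - ((0, 0) : V).2) ∈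
          S (fun u => β (u.1 + ((0, 0) : V).1, u.2 + ((0, 0) : V).2))} = {β | v ∈ S β} := by
        ext β
        simp
      rw [e1] at h2
      have e2 : Real.log (1 / 1) + Real.log (((1 : ℕ) : ℝ) + ((0 : ℕ) : ℝ) + 3) = Real.log 4 := by
        norm_num
      rw [e2] at h2
      linarith
    · intro v' hv' τ hτ
      rw [mem_singleton] at hτ
      subst hτ
      rw [insert_empty_eq, mem_singleton] at hv'
      subst hv'
      simp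
  · rintro β ⟨u, v, -, hc⟩
    have hu := hc.1.1
    obtain ⟨⟨c1, c2, c3, c4⟩, hu2⟩ := hu
    have hu3 : br u ∈ S β := hu2
    have hb := VSG_br u
    exact ⟨br u, mem_filter.2 ⟨hSΩ β hu3, by omega, by omega, by omega, by omega⟩, hu3⟩

private theorem VSG_rfcard (a b d e : ℤ) : #(rf a b d e) ≤ (b + 1 - a).toNat * (e + 1 - d).toNat := by
  unfold rf
  refine card_image_le.trans ?_
  rw [card_product, Int.card_Icc, Int.card_Icc]

private theorem VSG_log (s t N : ℕ) (ht : 1 ≤ t) (hs : s ≤ t) (hN : N ≤ 24 * t ^ 2) :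
    Real.log (((s : ℝ) + 1) ^ 2 + (N : ℝ) + 3) ≤ 6 * Real.log ((t : ℝ) + 2) := by
  have h1 : (N : ℝ) ≤ 24 * (t : ℝ) ^ 2 := by exact_mod_cast hN
  have h2 : (1 : ℝ) ≤ t := by exact_mod_cast ht
  have h2' : (s : ℝ) ≤ t := by exact_mod_cast hs
  have hs0 : (0 : ℝ) ≤ s := Nat.cast_nonneg _
  have h3 : ((s : ℝ) + 1) ^ 2 + (N : ℝ) + 3 ≤ ((t : ℝ) + 2) ^ 6 := by
    have h4 : (81 : ℝ) ≤ ((t : ℝ) + 2) ^ 4 := by
      have : (3 : ℝ) ^ 4 ≤ ((t : ℝ) + 2) ^ 4 := pow_le_pow_left₀ (by norm_num) (by linarith) 4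
      linarith
    have h5 : (t : ℝ) ^ 2 ≤ ((t : ℝ) + 2) ^ 2 := pow_le_pow_left₀ (by linarith) (by linarith) 2
    have h6 : 81 * (t : ℝ) ^ 2 ≤ ((t : ℝ) + 2) ^ 4 * ((t : ℝ) + 2) ^ 2 :=
      mul_le_mul h4 h5 (by positivity) (by positivity)
    have h7 : ((t : ℝ) + 2) ^ 6 = ((t : ℝ) + 2) ^ 4 * ((t : ℝ) + 2) ^ 2 := by ring
    have h8 : ((s : ℝ) + 1) ^ 2 ≤ (2 * (t : ℝ)) ^ 2 :=
      pow_le_pow_left₀ (by linarith) (by linarith) 2
    rw [h7]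
    nlinarith
  have h8 : (6 : ℝ) * Real.log ((t : ℝ) + 2) = Real.log (((t : ℝ) + 2) ^ 6) := by
    rw [Real.log_pow]
    norm_num
  rw [h8]
  exact Real.log_le_log (by positivity) h3

private theorem VSG_one (t : ℕ) (ht : 1 ≤ t) : 1 ≤ Real.log ((t : ℝ) + 2) := by
  have h2 : (1 : ℝ) ≤ t := by exact_mod_cast ht
  rw [Real.le_log_iff_exp_le (by linarith)]
  have := Real.exp_one_lt_d9
  linarith

private theorem VSG_fin (R : ℕ) (P C₁ C₀ l r K Q C : ℝ) (s t : ℕ) (hC1 : 0 < C₁) (hC0 : 0 < C₀)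
    (hK : 0 ≤ K) (hQ : 0 ≤ Q) (hP : 0 ≤ P) (hr0 : 0 ≤ r) (hr : r ≤ 6 * l) (ht : 1 ≤ t)
    (hs : t ≤ 16 * (s + 1)) (hC : 256 * (C₁ * (C₀ + 1) * 12 ^ R) ≤ C)
    (h : ((s : ℝ) + 1) ^ 2 * P ≤ C₁ * (C₀ + 1) * (2 * r) ^ R * (K * Q)) :
    P ≤ C * K * l ^ R * Q / (t : ℝ) ^ 2 := by
  have ht0 : (0 : ℝ) < (t : ℝ) ^ 2 := by positivity
  rw [le_div_iff₀ ht0]
  have h1 : (t : ℝ) ≤ 16 * ((s : ℝ) + 1) := by exact_mod_cast hs
  have h2 : (t : ℝ) ^ 2 ≤ (16 * ((s : ℝ) + 1)) ^ 2 := pow_le_pow_left₀ (Nat.cast_nonneg _) h1 2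
  have hl0 : 0 ≤ l := by linarith
  have e1 : (2 * r) ^ R ≤ 12 ^ R * l ^ R := by
    rw [← mul_pow]
    exact pow_le_pow_left₀ (by linarith) (by linarith) _
  have hC10 : 0 ≤ C₁ * (C₀ + 1) := by positivity
  have hKQ : 0 ≤ K * Q := mul_nonneg hK hQ
  have e2 : C₁ * (C₀ + 1) * (2 * r) ^ R * (K * Q) ≤
      C₁ * (C₀ + 1) * (12 ^ R * l ^ R) * (K * Q) :=
    mul_le_mul_of_nonneg_right (mul_le_mul_of_nonneg_left e1 hC10) hKQ
  calc P * (t : ℝ) ^ 2 ≤ P * (16 * ((s : ℝ) + 1)) ^ 2 := mul_le_mul_of_nonneg_left h2 hP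
    _ = 256 * (((s : ℝ) + 1) ^ 2 * P) := by ring
    _ ≤ 256 * (C₁ * (C₀ + 1) * (12 ^ R * l ^ R) * (K * Q)) := by linarith
    _ = 256 * (C₁ * (C₀ + 1) * 12 ^ R) * (l ^ R * (K * Q)) := by ring
    _ ≤ C * (l ^ R * (K * Q)) :=
        mul_le_mul_of_nonneg_right hC (mul_nonneg (pow_nonneg hl0 _) hKQ)
    _ = C * K * l ^ R * Q := by ring

private theorem VSG_lit (R : ℕ) (P l K Q C L : ℝ) (t : ℕ) (hK : 0 ≤ K) (hQ : 0 ≤ Q) (hP : 0 ≤ P)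
    (hl : 1 ≤ l) (ht : 1 ≤ t) (hL : (t : ℝ) ≤ L) (hC : L ^ 2 * 2 ^ R ≤ C)
    (h : P ≤ K * Real.log 4 ^ R * Q) : P ≤ C * K * l ^ R * Q / (t : ℝ) ^ 2 := by
  have ht0 : (0 : ℝ) < (t : ℝ) ^ 2 := by positivity
  rw [le_div_iff₀ ht0]
  have h2 : (t : ℝ) ^ 2 ≤ L ^ 2 := pow_le_pow_left₀ (Nat.cast_nonneg _) hL 2
  have h40 : 0 ≤ Real.log 4 := Real.log_nonneg (by norm_num)
  have h42 : Real.log 4 ≤ 2 := by
    have e1 : Real.log 4 = 2 * Real.log 2 := by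
      rw [show (4 : ℝ) = 2 ^ 2 by norm_num, Real.log_pow]
      norm_num
    have := Real.log_two_lt_d9
    rw [e1]
    linarith
  have h5 : Real.log 4 ^ R ≤ 2 ^ R * l ^ R := by
    refine (pow_le_pow_left₀ h40 h42 R).trans ?_
    exact le_mul_of_one_le_right (by positivity) (one_le_pow₀ hl)
  have h6 : K * Real.log 4 ^ R * Q ≤ K * (2 ^ R * l ^ R) * Q :=
    mul_le_mul_of_nonneg_right (mul_le_mul_of_nonneg_left h5 hK) hQ
  have hKlQ : 0 ≤ K * l ^ R * Q := mul_nonneg (mul_nonneg hK (pow_nonneg (by linarith) _)) hQ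
  calc P * (t : ℝ) ^ 2 ≤ (K * (2 ^ R * l ^ R) * Q) * L ^ 2 :=
        mul_le_mul (h.trans h6) h2 ht0.le (le_trans hP (h.trans h6))
    _ = L ^ 2 * 2 ^ R * (K * l ^ R * Q) := by ring
    _ ≤ C * (K * l ^ R * Q) := mul_le_mul_of_nonneg_right hC hKlQ
    _ = C * K * l ^ R * Q := by ring

theorem VSG (h1 : MNO_stmt) (h2 : SHI_stmt) (h3 : SHP_stmt) (h4 : ZCH_stmt) (h5 : PLR_stmt) :
    VSG_stmt := by
  obtain ⟨C₀, hC0, L, hL, hz⟩ := h4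
  intro R
  obtain ⟨C₁, hC1, hplr⟩ := h5 R
  have hCa : 256 * (C₁ * (C₀ + 1) * 12 ^ R) ≤ 256 * (C₁ * (C₀ + 1) * 12 ^ R) + (L : ℝ) ^ 2 * 2 ^ R := by
    have : 0 ≤ (L : ℝ) ^ 2 * 2 ^ R := by positivity
    linarith
  have hCb : (L : ℝ) ^ 2 * 2 ^ R ≤ 256 * (C₁ * (C₀ + 1) * 12 ^ R) + (L : ℝ) ^ 2 * 2 ^ R := by
    have : 0 ≤ 256 * (C₁ * (C₀ + 1) * 12 ^ R) := by positivity
    linarith
  refine ⟨256 * (C₁ * (C₀ + 1) * 12 ^ R) + (L : ℝ) ^ 2 * 2 ^ R, by positivity, ?_⟩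
  intro S Ω w K k t a d ht hRS
  have hK := hRS.2.2.2.2.2.1
  have hw0 := hRS.2.2.2.1
  have hQ0 : ∀ X : Finset V, 0 ≤ ∑ v ∈ X, w v := fun X => sum_nonneg fun v _ => hw0 v
  by_cases htL : t < L
  · have hL' : (t : ℝ) ≤ L := by exact_mod_cast htL.le
    exact ⟨VSG_lit R _ _ K _ _ L t hK (hQ0 _) (VSG_nonneg _) (VSG_one t ht) ht hL' hCb
        (VSG_small true k S Ω w R K hRS _ _ _ _ t ht),
      VSG_lit R _ _ K _ _ L t hK (hQ0 _) (VSG_nonneg _) (VSG_one t ht) ht hL' hCb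
        (VSG_small false k S Ω w R K hRS _ _ _ _ t ht)⟩
  have hs : 16 * (t / 16) ≤ t := Nat.mul_div_le t 16
  have hs2 : t ≤ 16 * (t / 16 + 1) := by omega
  set s := t / 16 with hsd
  have hcard : ∀ x y z u : ℤ, y - x ≤ 7 * t → u - z ≤ 7 * t → (y - x ≤ 2 * t ∨ u - z ≤ 2 * t) →
      #(rf x y z u) ≤ 24 * t ^ 2 := by
    intro x y z u q1 q2 q3
    refine (VSG_rfcard x y z u).trans ?_
    rcases q3 with q3 | q3
    · have e1 : (y + 1 - x).toNat ≤ 3 * t := by omega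
      have e2 : (u + 1 - z).toNat ≤ 8 * t := by omega
      calc _ ≤ (3 * t) * (8 * t) := Nat.mul_le_mul e1 e2
        _ = 24 * t ^ 2 := by ring
    · have e1 : (y + 1 - x).toNat ≤ 8 * t := by omega
      have e2 : (u + 1 - z).toNat ≤ 3 * t := by omega
      calc _ ≤ (8 * t) * (3 * t) := Nat.mul_le_mul e1 e2
        _ = 24 * t ^ 2 := by ring
  have hlog0 : ∀ N : ℕ, 0 ≤ Real.log (((s : ℝ) + 1) ^ 2 + (N : ℝ) + 3) := by
    intro N
    apply Real.log_nonneg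
    have : (0 : ℝ) ≤ N := Nat.cast_nonneg _
    nlinarith [sq_nonneg ((s : ℝ) + 1)]
  constructor
  · obtain ⟨Z, z1, z2, z3, z4⟩ := hz true k a (a + 6 * t + 2 * s) (d + 2 * s) (d + 2 * t)
      (by omega) (by omega) (fun _ => ⟨by omega, by omega⟩) (fun h => by simp at h)
    refine VSG_fin R _ C₁ C₀ _ _ K _ _ s t hC1 hC0 hK (hQ0 _) (VSG_nonneg _)
      (hlog0 _) (VSG_log s t _ ht (by omega) (hcard a (a + 6 * t + 2 * s) (d + 2 * s) (d + 2 * t)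
        (by omega) (by omega) (Or.inr (by omega)))) ht hs2 hCa ?_
    refine VSG_core h2 h3 R C₁ C₀ hC1 hplr true k S Ω w K hRS a (a + 6 * t) d (d + 2 * t)
      a (a + 6 * t + 2 * s) (d + 2 * s) (d + 2 * t) s t ?_ (by omega) (by omega) (by omega)
      (by omega) Z z1 z2 z3 z4
    intro c W i j hi0 hi hj0 hj h
    exact (h1 c k W (a + 2 * i) (a + 6 * t + 2 * i) (d + 2 * j) (d + 2 * t + 2 * j)
      a (a + 6 * t + 2 * s) (d + 2 * s) (d + 2 * t)).1 (by omega) (by omega) (by omega) (by omega)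
      (by omega) h
  · obtain ⟨Z, z1, z2, z3, z4⟩ := hz false k (a + 2 * s) (a + 2 * t) d (d + 6 * t + 2 * s)
      (by omega) (by omega) (fun h => by simp at h) (fun _ => ⟨by omega, by omega⟩)
    refine VSG_fin R _ C₁ C₀ _ _ K _ _ s t hC1 hC0 hK (hQ0 _) (VSG_nonneg _)
      (hlog0 _) (VSG_log s t _ ht (by omega) (hcard (a + 2 * s) (a + 2 * t) d (d + 6 * t + 2 * s)
        (by omega) (by omega) (Or.inl (by omega)))) ht hs2 hCa ?_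
    refine VSG_core h2 h3 R C₁ C₀ hC1 hplr false k S Ω w K hRS a (a + 2 * t) d (d + 6 * t)
      (a + 2 * s) (a + 2 * t) d (d + 6 * t + 2 * s) s t ?_ (by omega) (by omega) (by omega)
      (by omega) Z z1 z2 z3 z4
    intro c W i j hi0 hi hj0 hj h
    exact (h1 c k W (a + 2 * i) (a + 2 * t + 2 * i) (d + 2 * j) (d + 6 * t + 2 * j)
      (a + 2 * s) (a + 2 * t) d (d + 6 * t + 2 * s)).2 (by omega) (by omega) (by omega) (by omega)
      (by omega) h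

end TP.TW
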