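import Pool.Agent.helper48.TH.Spec

/-! # Row PLG of the project TH (MP_f42afa_pr) -/

set_option autoImplicit false

namespace TP.TW

open DP MeasureTheory Finset

theorem PLG : PLG_stmt := by
  intro U p hp
  have hU0 : (0 : ℝ) ≤ (#U : ℝ) := Nat.cast_nonneg _
  set N : ℝ := (#U : ℝ) + 3 with hN
  have hN3 : (3 : ℝ) ≤ N := by rw [hN]; linarith
  have hN0 : (0 : ℝ) < N := by linarith
  have hlog : 1 ≤ Real.log N := by
    rw [Real.le_log_iff_exp_le hN0]
    have := Real.exp_one_lt_d9
    linarith
  have hz : ∀ z ∈ U, p z * Real.log (1 / p z) ≤ p z * Real.log N + 1 / N := by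
    intro z hz
    rcases (hp z hz).eq_or_lt with h0 | h0
    · rw [← h0, zero_mul, zero_mul, zero_add]
      positivity
    · have e : Real.log (1 / p z) = Real.log N + Real.log (1 / (p z * N)) := by
        rw [← Real.log_mul (by positivity) (by positivity)]
        have e0 : N * (1 / (p z * N)) = 1 / p z := by field_simp
        rw [e0]
      have e2 : Real.log (1 / (p z * N)) ≤ 1 / (p z * N) - 1 :=
        Real.log_le_sub_one_of_pos (by positivity)
      have e3 : p z * Real.log (1 / (p z * N)) ≤ p z * (1 / (p z * N)) :=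
        mul_le_mul_of_nonneg_left (by linarith) h0.le
      have e4 : p z * (1 / (p z * N)) = 1 / N := by field_simp
      rw [e, mul_add]
      linarith
  have hlast : (#U : ℝ) * (1 / N) ≤ 1 := by
    rw [mul_one_div, div_le_one hN0, hN]
    linarith
  calc ∑ z ∈ U, p z * Real.log (1 / p z)
      ≤ ∑ z ∈ U, (p z * Real.log N + 1 / N) := Finset.sum_le_sum hz
    _ = (∑ z ∈ U, p z) * Real.log N + (#U : ℝ) * (1 / N) := by
        rw [Finset.sum_add_distrib, ← Finset.sum_mul, Finset.sum_const, nsmul_eq_mul]
    _ ≤ (∑ z ∈ U, p z + 1) * Real.log N := by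
        rw [add_mul, one_mul]
        linarith

end TP.TW
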